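import Mathlib

/-!
Galois closure over a `k`-element set versus Wielandt `m`-closure: the least `m` such that every
subgroup of `S_n` that is Galois closed over a `k`-element set is `m`-closed is `n - ⌈n / k⌉`.
-/

namespace Pool.Agent.Results.MP_4c291d_al.ClosureArity

open Equiv

/-- `G` is Galois closed over a `k`-element set: it is the invariance group of some set of
functions `k^n → k`. -/
def GaloisClosed (n k : ℕ) (G : Subgroup (Perm (Fin n))) : Prop :=
  ∃ F : Set ((Fin n → Fin k) → Fin k), ∀ σ : Perm (Fin n),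
    σ ∈ G ↔ ∀ f ∈ F, ∀ a : Fin n → Fin k, f (fun i => a (σ i)) = f a

/-- `G` is `m`-closed: it is the group of all permutations preserving every member of some set of
`m`-ary relations. -/
def MClosed (n m : ℕ) (G : Subgroup (Perm (Fin n))) : Prop :=
  ∃ R : Set (Set (Fin m → Fin n)), ∀ σ : Perm (Fin n),
    σ ∈ G ↔ ∀ ρ ∈ R, ∀ r ∈ ρ, (fun i => σ (r i)) ∈ ρ

/-- a tuple of length `m` whose range contains a given set of at most `m` elements -/
theorem exists_tuple {n m : ℕ} (hn : 0 < n) (D : Finset (Fin n)) (hD : D.card ≤ m) :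
    ∃ r : Fin m → Fin n, ∀ x ∈ D, ∃ i, r i = x := by
  classical
  let e := D.equivFin
  refine ⟨fun i => if h : (i : ℕ) < D.card then (e.symm ⟨i, h⟩ : Fin n) else ⟨0, hn⟩, ?_⟩
  intro x hx
  refine ⟨⟨e ⟨x, hx⟩, lt_of_lt_of_le (e ⟨x, hx⟩).2 hD⟩, ?_⟩
  simp

/-- some colour class has at least `⌈n / k⌉` elements -/
theorem exists_large_class {n k : ℕ} (hk : 0 < k) (a : Fin n → Fin k) :
    ∃ c : Fin k, (n + k - 1) / k ≤ (Finset.univ.filter (fun i => a i = c)).card := by
  classical
  by_contra hcon
  push Not at hcon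
  have h1 : ∑ c : Fin k, (Finset.univ.filter (fun i => a i = c)).card = n := by
    have h2 := Finset.card_eq_sum_card_fiberwise (f := a) (s := (Finset.univ : Finset (Fin n)))
      (t := Finset.univ) (by intro x _; simp)
    rw [Finset.card_univ, Fintype.card_fin] at h2
    exact h2.symm
  set t := (n + k - 1) / k with ht
  have hc0 : 0 < t := by
    have := hcon ⟨0, hk⟩
    omega
  have h3 : ∑ c : Fin k, (Finset.univ.filter (fun i => a i = c)).card ≤ ∑ _c : Fin k, (t - 1) := by
    refine Finset.sum_le_sum fun c _ => ?_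
    have := hcon c
    omega
  rw [h1, Finset.sum_const, Finset.card_univ, Fintype.card_fin, smul_eq_mul] at h3
  have h4 : t * k ≤ n + k - 1 := Nat.div_mul_le_self _ _
  have h5 : k * (t - 1) + k = t * k := by
    obtain ⟨s, hs⟩ : ∃ s, t = s + 1 := ⟨t - 1, by omega⟩
    rw [hs]
    simp only [Nat.add_sub_cancel]
    ring
  omega

theorem upper {n k : ℕ} (hn : 2 ≤ n) (hk : 2 ≤ k) (G : Subgroup (Perm (Fin n)))
    (hG : GaloisClosed n k G) : MClosed n (n - (n + k - 1) / k) G := by
  classical
  obtain ⟨F, hF⟩ := hG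
  set m := n - (n + k - 1) / k with hm
  refine ⟨{ρ | ∀ g ∈ G, ∀ r ∈ ρ, (fun i => g (r i)) ∈ ρ}, fun σ => ⟨?_, ?_⟩⟩
  · intro hσ ρ hρ r hr
    exact hρ σ hσ r hr
  · intro h
    rw [hF]
    intro f hf a
    obtain ⟨c, hc⟩ := exists_large_class (by omega) a
    -- the points that `σ` maps outside the large class
    set D : Finset (Fin n) := Finset.univ.filter (fun i => a (σ i) ≠ c) with hD
    have hDc : D.card ≤ m := by
      have h1 : D.card = (Finset.univ.filter (fun i => a i ≠ c)).card := by
        refine Finset.card_bij (fun i _ => σ i) ?_ (fun x _ y _ h => σ.injective h) ?_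
        · intro i hi
          rw [hD, Finset.mem_filter] at hi
          rw [Finset.mem_filter]
          exact ⟨Finset.mem_univ _, hi.2⟩
        · intro j hj
          rw [Finset.mem_filter] at hj
          refine ⟨σ.symm j, ?_, by simp⟩
          rw [hD, Finset.mem_filter]
          exact ⟨Finset.mem_univ _, by simpa using hj.2⟩
      have h2 := Finset.card_filter_add_card_filter_not (s := (Finset.univ : Finset (Fin n)))
        (p := fun i => a i = c)
      rw [Finset.card_univ, Fintype.card_fin] at h2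
      have h3 : (Finset.univ.filter (fun i => a i ≠ c)).card =
        (Finset.univ.filter (fun i => ¬ a i = c)).card := rfl
      omega
    obtain ⟨r, hr⟩ := exists_tuple (by omega) D hDc
    have h1 := h {s | ∃ g ∈ G, s = fun i => g (r i)} (by
      rintro g hg s ⟨g', hg', rfl⟩
      exact ⟨g * g', G.mul_mem hg hg', rfl⟩) r ⟨1, G.one_mem, rfl⟩
    obtain ⟨g, hg, hgr⟩ := h1
    have hagree : ∀ i ∈ D, σ i = g i := by
      intro i hi
      obtain ⟨j, rfl⟩ := hr i hi
      exact congrFun hgr j
    have hcol : (fun i => a (σ i)) = fun i => a (g i) := by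
      funext i
      by_cases hi : i ∈ D
      · rw [hagree i hi]
      · have h2 : a (σ i) = c := by
          rw [hD, Finset.mem_filter] at hi
          push Not at hi
          exact hi (Finset.mem_univ _)
        rw [h2]
        by_contra hne
        -- `g i` lies outside the large class, hence `g i = σ j` for some `j ∈ D`
        set j := σ.symm (g i) with hj
        have hjD : j ∈ D := by
          rw [hD, Finset.mem_filter]
          refine ⟨Finset.mem_univ _, ?_⟩
          rw [hj, Equiv.apply_symm_apply]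
          exact fun h => hne h.symm
        have h3 : g j = g i := by
          rw [← hagree j hjD, hj, Equiv.apply_symm_apply]
        have h4 : j = i := g.injective h3
        rw [h4] at hjD
        exact hi hjD
    rw [hcol]
    exact (hF g).1 hg f hf a

/-- even permutations preserving the blocks `{i | i / k = j}` -/
def blockAlt (n k : ℕ) : Subgroup (Perm (Fin n)) where
  carrier := {σ | (∀ i : Fin n, (σ i : ℕ) / k = (i : ℕ) / k) ∧ Perm.sign σ = 1}
  one_mem' := ⟨fun _ => rfl, map_one _⟩
  mul_mem' := by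
    rintro σ τ ⟨h1, h2⟩ ⟨h3, h4⟩
    refine ⟨fun i => ?_, ?_⟩
    · rw [Perm.mul_apply, h1, h3]
    · rw [map_mul, h2, h4, one_mul]
  inv_mem' := by
    rintro σ ⟨h1, h2⟩
    refine ⟨fun i => ?_, ?_⟩
    · have h3 := h1 (σ⁻¹ i)
      have h4 : σ (σ⁻¹ i) = i := by simp
      rw [h4] at h3
      exact h3.symm
    · rw [map_inv, h2, inv_one]

theorem galoisClosed_blockAlt {n k : ℕ} (hk : 2 ≤ k) : GaloisClosed n k (blockAlt n k) := by
  classical
  refine ⟨{f | ∀ g ∈ blockAlt n k, ∀ a : Fin n → Fin k, f (fun i => a (g i)) = f a},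
    fun σ => ⟨?_, ?_⟩⟩
  · intro hσ f hf a
    exact hf σ hσ a
  · intro h
    have horb : ∀ a : Fin n → Fin k, ∃ g ∈ blockAlt n k, (fun i => a (σ i)) =
        fun i => a (g i) := by
      intro a
      by_contra hcon
      have h1 := h (fun x => if ∃ g ∈ blockAlt n k, x = fun i => a (g i) then ⟨1, by omega⟩
        else ⟨0, by omega⟩) (by
          intro g hg x
          have h2 : (∃ g' ∈ blockAlt n k, (fun i => x (g i)) = fun i => a (g' i)) ↔
              ∃ g' ∈ blockAlt n k, x = fun i => a (g' i) := by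
            constructor
            · rintro ⟨g', hg', he⟩
              refine ⟨g' * g⁻¹, (blockAlt n k).mul_mem hg' ((blockAlt n k).inv_mem hg), ?_⟩
              funext i
              have h3 := congrFun he (g⁻¹ i)
              have h4 : g (g⁻¹ i) = i := by simp
              simp only [h4] at h3
              rw [h3]
              rfl
            · rintro ⟨g', hg', rfl⟩
              exact ⟨g' * g, (blockAlt n k).mul_mem hg' hg, rfl⟩
          simp only [h2]) a
      rw [if_neg hcon, if_pos ⟨1, (blockAlt n k).one_mem, rfl⟩] at h1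
      simp at h1
    have hblock : ∀ i : Fin n, (σ i : ℕ) / k = (i : ℕ) / k := by
      intro i
      obtain ⟨g, hg, he⟩ := horb (fun x => if (x : ℕ) / k = (i : ℕ) / k then ⟨1, by omega⟩
        else ⟨0, by omega⟩)
      have h1 := congrFun he i
      simp only [hg.1 i, if_true] at h1
      by_contra hne
      rw [if_neg hne] at h1
      simp at h1
    obtain ⟨g, hg, he⟩ := horb (fun x => ⟨(x : ℕ) % k, Nat.mod_lt _ (by omega)⟩)
    have hσg : σ = g := by
      ext i
      have h1 := congrFun he i
      simp only [Fin.mk.injEq] at h1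
      have h2 := hblock i
      have h3 := hg.1 i
      rw [← Nat.div_add_mod (σ i : ℕ) k, ← Nat.div_add_mod (g i : ℕ) k, h1, h2, h3]
    rw [hσg]
    exact hg

theorem lower {n k m : ℕ} (hn : 2 ≤ n) (hk : 2 ≤ k) (hm : m < n - (n + k - 1) / k) :
    ¬ MClosed n m (blockAlt n k) := by
  classical
  rintro ⟨R, hR⟩
  set τ : Perm (Fin n) := swap ⟨0, by omega⟩ ⟨1, by omega⟩ with hτ
  have hne : (⟨0, by omega⟩ : Fin n) ≠ ⟨1, by omega⟩ := by
    intro h
    simpa using congrArg Fin.val h
  have hswap : ∀ i j : Fin n, (i : ℕ) / k = (j : ℕ) / k →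
      ∀ x : Fin n, ((swap i j x : Fin n) : ℕ) / k = (x : ℕ) / k := by
    intro i j hij x
    by_cases hxi : x = i
    · subst hxi
      rw [swap_apply_left]
      exact hij.symm
    · by_cases hxj : x = j
      · subst hxj
        rw [swap_apply_right]
        exact hij
      · rw [swap_apply_of_ne_of_ne hxi hxj]
  have hτb : ∀ x : Fin n, ((τ x : Fin n) : ℕ) / k = (x : ℕ) / k := by
    apply hswap
    simp only
    rw [Nat.div_eq_of_lt (by omega), Nat.div_eq_of_lt (by omega)]
  have hτR : ∀ ρ ∈ R, ∀ r ∈ ρ, (fun i => τ (r i)) ∈ ρ := by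
    intro ρ hρ r hr
    set C : Finset (Fin n) := (Finset.univ.image r)ᶜ with hC
    have hCc : (n + k - 1) / k < C.card := by
      rw [hC, Finset.card_compl, Fintype.card_fin]
      have h1 : (Finset.univ.image r).card ≤ m := by
        refine Finset.card_image_le.trans ?_
        rw [Finset.card_univ, Fintype.card_fin]
      omega
    have hmaps : ∀ x ∈ C, (x : ℕ) / k ∈ Finset.range ((n + k - 1) / k) := by
      intro x _
      rw [Finset.mem_range, Nat.lt_iff_add_one_le, Nat.le_div_iff_mul_le (by omega)]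
      have h1 := x.2
      have h2 := Nat.div_mul_le_self (x : ℕ) k
      have h3 : ((x : ℕ) / k + 1) * k = (x : ℕ) / k * k + k := by ring
      omega
    obtain ⟨i, hi, j, hj, hij, hb⟩ := Finset.exists_ne_map_eq_of_card_lt_of_maps_to
      (by rw [Finset.card_range]; exact hCc) hmaps
    have hg : τ * swap i j ∈ blockAlt n k := by
      refine ⟨fun x => ?_, ?_⟩
      · rw [Perm.mul_apply, hτb, hswap i j hb]
      · rw [map_mul, hτ, Perm.sign_swap hne, Perm.sign_swap hij]
        simp
    have h1 := (hR _).1 hg ρ hρ r hr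
    have h2 : (fun l => (τ * swap i j) (r l)) = fun l => τ (r l) := by
      funext l
      have h3 : swap i j (r l) = r l := by
        apply swap_apply_of_ne_of_ne
        · intro h
          rw [hC, Finset.mem_compl] at hi
          exact hi (h ▸ Finset.mem_image_of_mem _ (Finset.mem_univ _))
        · intro h
          rw [hC, Finset.mem_compl] at hj
          exact hj (h ▸ Finset.mem_image_of_mem _ (Finset.mem_univ _))
      rw [Perm.mul_apply, h3]
    rw [h2] at h1
    exact h1
  have hτG := (hR τ).2 hτR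
  have h1 : Perm.sign τ = 1 := hτG.2
  rw [hτ, Perm.sign_swap hne] at h1
  exact absurd h1 (by decide)

theorem ceil_eq (n k : ℕ) (hk : 2 ≤ k) : ⌈(n : ℚ) / (k : ℚ)⌉₊ = (n + k - 1) / k := by
  have hk0 : (0 : ℚ) < k := by
    have : 0 < k := by omega
    exact_mod_cast this
  apply le_antisymm
  · rw [Nat.ceil_le, div_le_iff₀ hk0]
    have h1 : n ≤ (n + k - 1) / k * k := by
      have h2 := Nat.div_add_mod (n + k - 1) k
      have h3 := Nat.mod_lt (n + k - 1) (show 0 < k by omega)
      have h4 : k * ((n + k - 1) / k) = (n + k - 1) / k * k := Nat.mul_comm _ _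
      omega
    exact_mod_cast h1
  · have h1 : (n : ℚ) ≤ (⌈(n : ℚ) / (k : ℚ)⌉₊ : ℚ) * k := by
      rw [← div_le_iff₀ hk0]
      exact Nat.le_ceil _
    have h2 : n ≤ ⌈(n : ℚ) / (k : ℚ)⌉₊ * k := by exact_mod_cast h1
    have h3 : n + k - 1 < (⌈(n : ℚ) / (k : ℚ)⌉₊ + 1) * k := by
      have : (⌈(n : ℚ) / (k : ℚ)⌉₊ + 1) * k = ⌈(n : ℚ) / (k : ℚ)⌉₊ * k + k := by ring
      omega
    have h4 := (Nat.div_lt_iff_lt_mul (show 0 < k by omega)).2 h3
    omega

/-- **Theorem.** For all `n, k ≥ 2`, the least `m ≥ 1` such that every subgroup of `S_n` that is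
Galois closed over a `k`-element set is `m`-closed equals `n - ⌈n / k⌉`. -/
theorem result (n k : ℕ) (hn : 2 ≤ n) (hk : 2 ≤ k) :
    IsLeast {m : ℕ | 1 ≤ m ∧ ∀ G : Subgroup (Perm (Fin n)), GaloisClosed n k G → MClosed n m G}
      (n - ⌈(n : ℚ) / (k : ℚ)⌉₊) := by
  rw [ceil_eq n k hk]
  constructor
  · refine ⟨?_, fun G hG => upper hn hk G hG⟩
    have h1 : (n + k - 1) / k ≤ n - 1 := by
      rw [← Nat.lt_add_one_iff, Nat.div_lt_iff_lt_mul (by omega)]
      obtain ⟨a, rfl⟩ : ∃ a, n = a + 2 := ⟨n - 2, by omega⟩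
      obtain ⟨b, rfl⟩ : ∃ b, k = b + 2 := ⟨k - 2, by omega⟩
      have h2 : (a + 2 - 1 + 1) * (b + 2) = a * b + 2 * a + 2 * b + 4 := by
        have : a + 2 - 1 + 1 = a + 2 := by omega
        rw [this]
        ring
      rw [h2]
      generalize a * b = c
      omega
    omega
  · rintro m ⟨_, hm⟩
    by_contra hlt
    push Not at hlt
    exact lower hn hk hlt (hm _ (galoisClosed_blockAlt hk))

end Pool.Agent.Results.MP_4c291d_al.ClosureArity
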